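import Pool.Agent.Helper89.Hia.Defs

/-!
MP_5ace61_lc, BLOCK D (one step), relative to the statement of BLOCK A (zone).
-/

open Set Cardinal

namespace Pool.Agent.Hia

namespace OneStep

/-- The set which contains `M i` iff `P i` and agrees with `c` outside of all `M i`. -/
def S (M : ℕ → Set ℕ) (P : ℕ → Prop) (c : Set ℕ) : Set ℕ :=
  {x | (∃ i, x ∈ M i ∧ P i) ∨ ((∀ i, x ∉ M i) ∧ x ∈ c)}

variable {M : ℕ → Set ℕ}

theorem S_mono {P P' : ℕ → Prop} {c c' : Set ℕ} (h : ∀ i, (M i).Nonempty → P i → P' i)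
    (hc : c ⊆ c') : S M P c ⊆ S M P' c' := by
  rintro x (⟨i, hx, hP⟩ | ⟨hx, hxc⟩)
  · exact Or.inl ⟨i, hx, h i ⟨x, hx⟩ hP⟩
  · exact Or.inr ⟨hx, hc hxc⟩

theorem mem_S (hdis : ∀ i j, i ≠ j → Disjoint (M i) (M j)) {P : ℕ → Prop} {c : Set ℕ} {i x : ℕ}
    (hx : x ∈ M i) : x ∈ S M P c ↔ P i := by
  constructor
  · rintro (⟨j, hj, hP⟩ | ⟨h, -⟩)
    · have : i = j := by
        by_contra hij
        exact (disjoint_left.1 (hdis i j hij)) hx hj
      rwa [this]
    · exact absurd hx (h i)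
  · exact fun h => Or.inl ⟨i, hx, h⟩

theorem symmDiff_eq (hdis : ∀ i j, i ≠ j → Disjoint (M i) (M j)) {P : ℕ → Prop} {c : Set ℕ}
    (htriv : ∀ i, M i ⊆ c ∨ Disjoint (M i) c) :
    symmDiff (S M P c) c = ⋃ i ∈ {i | (M i).Nonempty ∧ ¬ (M i ⊆ c ↔ P i)}, M i := by
  ext x
  simp only [mem_iUnion, exists_prop, mem_ofPred_eq]
  constructor
  · intro hx
    have hex : ∃ i, x ∈ M i := by
      by_contra hcon
      push Not at hcon
      have h1 : x ∈ S M P c ↔ x ∈ c := by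
        constructor
        · rintro (⟨i, hi, -⟩ | ⟨-, h⟩)
          · exact absurd hi (hcon i)
          · exact h
        · exact fun h => Or.inr ⟨hcon, h⟩
      rcases hx with ⟨h2, h3⟩ | ⟨h2, h3⟩
      · exact h3 (h1.1 h2)
      · exact h3 (h1.2 h2)
    obtain ⟨i, hi⟩ := hex
    refine ⟨i, ⟨⟨x, hi⟩, fun h => ?_⟩, hi⟩
    have h1 := mem_S hdis (P := P) (c := c) hi
    have h2 : x ∈ c ↔ M i ⊆ c := by
      constructor
      · intro hxc
        rcases htriv i with h3 | h3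
        · exact h3
        · exact absurd hxc (disjoint_left.1 h3 hi)
      · exact fun h3 => h3 hi
    rcases hx with ⟨h3, h4⟩ | ⟨h3, h4⟩
    · exact h4 (h2.2 (h.2 (h1.1 h3)))
    · exact h4 (h1.2 (h.1 (h2.1 h3)))
  · rintro ⟨i, ⟨-, hne⟩, hi⟩
    have h1 := mem_S hdis (P := P) (c := c) hi
    have h2 : x ∈ c ↔ M i ⊆ c := by
      constructor
      · intro hxc
        rcases htriv i with h3 | h3
        · exact h3
        · exact absurd hxc (disjoint_left.1 h3 hi)
      · exact fun h3 => h3 hi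
    by_cases hP : P i
    · left
      refine ⟨h1.2 hP, fun hxc => hne ⟨fun _ => hP, fun _ => h2.1 hxc⟩⟩
    · right
      refine ⟨?_, fun hxS => hP (h1.1 hxS)⟩
      by_contra hxc
      exact hne ⟨fun h => absurd (h2.2 h) hxc, fun h => absurd h hP⟩

theorem symmDiff_mem {E : BooleanSubalgebra (Set ℕ)} {a b : Set ℕ} (ha : a ∈ E) (hb : b ∈ E) :
    symmDiff a b ∈ E :=
  BooleanSubalgebra.sup_mem (BooleanSubalgebra.sdiff_mem ha hb) (BooleanSubalgebra.sdiff_mem hb ha)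

theorem S_mem_iff (hdis : ∀ i j, i ≠ j → Disjoint (M i) (M j)) {P : ℕ → Prop} {c : Set ℕ}
    (htriv : ∀ i, M i ⊆ c ∨ Disjoint (M i) c) {E : BooleanSubalgebra (Set ℕ)}
    (hM : ∀ i, M i ∈ E) (hfin : {i | (M i).Nonempty ∧ ¬ (M i ⊆ c ↔ P i)}.Finite) :
    S M P c ∈ E ↔ c ∈ E := by
  have h1 : symmDiff (S M P c) c ∈ E := by
    rw [symmDiff_eq hdis htriv]
    exact BooleanSubalgebra.biSup_mem hfin fun i _ => hM i
  constructor
  · intro h
    have := symmDiff_mem h h1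
    rwa [symmDiff_symmDiff_cancel_left] at this
  · intro h
    have := symmDiff_mem h h1
    rw [symmDiff_comm (S M P c) c, symmDiff_symmDiff_cancel_left] at this
    exact this

end OneStep

open OneStep in
theorem one_step_of_zone {A : BooleanSubalgebra (Set ℕ)} (hl : HL A)
    {D : Set ℕ} (hD : D ∈ A) {C : Set (Set ℕ)} (hC : GoodChain A D C)
    (zone : ∀ (M : ℕ → Set ℕ) (J : Set ℕ), (∀ i ∈ J, (M i).Nonempty ∧ Triv C (M i)) →
      (∀ i ∈ J, (∃ c ∈ C, Disjoint (M i) c) ∧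
        ∀ c ∈ C, Disjoint (M i) c → ∃ c' ∈ C, c ⊂ c' ∧ Disjoint (M i) c') →
      (∀ i ∈ J, (∃ c ∈ C, M i ⊆ c) ∧
        ∀ c ∈ C, M i ⊆ c → ∃ c' ∈ C, c' ⊂ c ∧ M i ⊆ c') →
      ∃ z : ℕ → Set ℕ, (∀ i ∈ J, z i ∈ C) ∧ ∀ c ∈ C,
        {i | i ∈ J ∧ ((Disjoint (M i) (z i) ∧ z i ⊂ c ∧ Disjoint (M i) c) ∨
          (M i ⊆ z i ∧ M i ⊆ c ∧ c ⊂ z i))}.Finite) :
    ∃ (C' : Set (Set ℕ)) (B : Set (Set ℕ × Set ℕ)), C' ⊆ A ∧ (∀ c ∈ C', c ⊆ D) ∧
      IsChain (· ⊆ ·) C' ∧ ∅ ∈ C' ∧ D ∈ C' ∧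
      (∀ p ∈ B, p.1 ∈ C' ∧ p.2 ∈ C' ∧ p.1 ⊂ p.2 ∧ (∀ h ∈ C', h ⊆ p.1 ∨ p.2 ⊆ h) ∧
        Triv C (p.2 \ p.1)) ∧
      (∀ q ∈ A, q ⊆ D → ∃ F ⊆ B, F.Finite ∧
        q ∈ BooleanSubalgebra.closure (C' ∪ {x | ∃ p ∈ F, x = q ∩ (p.2 \ p.1)})) := by
  classical
  -- the trivial sets
  set T : Set (Set ℕ) := {u | u ∈ A ∧ u ⊆ D ∧ Triv C u} with hT
  obtain ⟨T', hT'T, hT'c, hcov⟩ := hl T (fun u hu => hu.1)
  have h0T : (∅ : Set ℕ) ∈ T :=
    ⟨BooleanSubalgebra.bot_mem, empty_subset _, fun c _ => Or.inl (empty_subset _)⟩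
  obtain ⟨u, hu⟩ := (hT'c.insert (∅ : Set ℕ)).exists_eq_range (insert_nonempty _ _)
  have huT : ∀ i, u i ∈ T := by
    intro i
    have : u i ∈ insert (∅ : Set ℕ) T' := by rw [hu]; exact mem_range_self i
    rcases this with h | h
    · rw [h]; exact h0T
    · exact hT'T h
  -- disjoint pieces
  set M : ℕ → Set ℕ := fun i => u i \ ⋃ j ∈ Finset.range i, u j with hM
  have hMA : ∀ i, M i ∈ A := by
    intro i
    refine BooleanSubalgebra.sdiff_mem (huT i).1 ?_
    exact BooleanSubalgebra.biSup_mem (t := (↑(Finset.range i) : Set ℕ)) (Finset.finite_toSet _)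
      fun j _ => (huT j).1
  have hMD : ∀ i, M i ⊆ D := fun i => sdiff_subset.trans (huT i).2.1
  have hMT : ∀ i, Triv C (M i) := by
    intro i c hc
    rcases (huT i).2.2 c hc with h | h
    · exact Or.inl (sdiff_subset.trans h)
    · exact Or.inr (h.mono_left sdiff_subset)
  have hdis : ∀ i j, i ≠ j → Disjoint (M i) (M j) := by
    have key : ∀ i j, i < j → Disjoint (M i) (M j) := by
      intro i j hij
      rw [disjoint_left]
      rintro x ⟨hx, -⟩ ⟨-, hx'⟩
      exact hx' (mem_biUnion (Finset.mem_range.2 hij) hx)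
    intro i j hij
    rcases lt_or_gt_of_ne hij with h | h
    · exact key i j h
    · exact (key j i h).symm
  have hUM : ∀ n, ∀ j < n, u j ⊆ ⋃ i ∈ Finset.range n, M i := by
    intro n j hj x hx
    have hex : ∃ i, x ∈ u i := ⟨j, hx⟩
    have h1 := Nat.find_spec hex
    have h2 : Nat.find hex ≤ j := Nat.find_min' hex hx
    refine mem_biUnion (Finset.mem_range.2 (h2.trans_lt hj)) ⟨h1, ?_⟩
    intro h3
    simp only [mem_iUnion, exists_prop, Finset.mem_range] at h3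
    obtain ⟨k, hk, hxk⟩ := h3
    exact Nat.find_min hex hk hxk
  have hTcov : ∀ t ∈ T, ∃ n, t ⊆ ⋃ i ∈ Finset.range n, M i := by
    intro t ht
    obtain ⟨F, hF, hFT, htF⟩ := hcov t ht
    have h1 : ∃ n, ∀ s ∈ F, ∃ j < n, s = u j := by
      clear htF
      induction F, hF using Set.Finite.induction_on with
      | empty => exact ⟨0, fun s hs => absurd hs (notMem_empty s)⟩
      | @insert a F _ _ ih =>
        obtain ⟨n, hn⟩ := ih ((subset_insert _ _).trans hFT)
        have ha : a ∈ insert (∅ : Set ℕ) T' := Or.inr (hFT (mem_insert _ _))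
        rw [hu] at ha
        obtain ⟨k, hk⟩ := ha
        refine ⟨max n (k + 1), ?_⟩
        rintro s (rfl | hs)
        · exact ⟨k, lt_of_lt_of_le (Nat.lt_succ_self k) (le_max_right _ _), hk.symm⟩
        · obtain ⟨j, hj, rfl⟩ := hn s hs
          exact ⟨j, lt_of_lt_of_le hj (le_max_left _ _), rfl⟩
    obtain ⟨n, hn⟩ := h1
    refine ⟨n, fun x hx => ?_⟩
    obtain ⟨s, hs, hxs⟩ := htF hx
    obtain ⟨j, hj, rfl⟩ := hn s hs
    exact hUM n j hj hxs
  -- comparability facts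
  have hle : ∀ c ∈ C, ∀ c' ∈ C, c ⊆ c' ∨ c' ⊆ c := by
    intro c hc c' hc'
    by_cases h : c = c'
    · exact Or.inl h.subset
    · exact hC.chain hc hc' h
  have hlow : ∀ i, (M i).Nonempty → ∀ c ∈ C, ∀ c' ∈ C, Disjoint (M i) c → M i ⊆ c' → c ⊂ c' := by
    intro i hi c hc c' hc' h1 h2
    obtain ⟨x, hx⟩ := hi
    have hxc : x ∉ c := disjoint_left.1 h1 hx
    rcases hle c hc c' hc' with h | h
    · exact ⟨h, fun h3 => hxc (h3 (h2 hx))⟩
    · exact absurd (h (h2 hx)) hxc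
  -- the two-sided blocks
  set J : Set ℕ := {i | (M i).Nonempty ∧
    (∀ c ∈ C, Disjoint (M i) c → ∃ c' ∈ C, c ⊂ c' ∧ Disjoint (M i) c') ∧
    (∀ c ∈ C, M i ⊆ c → ∃ c' ∈ C, c' ⊂ c ∧ M i ⊆ c')} with hJ
  obtain ⟨z, hzC, hzfin⟩ := zone M J (fun i hi => ⟨hi.1, hMT i⟩)
    (fun i hi => ⟨⟨∅, hC.bot, disjoint_bot_right⟩, hi.2.1⟩)
    (fun i hi => ⟨⟨D, hC.top, hMD i⟩, hi.2.2⟩)
  -- the places
  have hplace : ∀ i, ∃ (c : Set ℕ) (s : Prop), (M i).Nonempty → c ∈ C ∧ (s → Disjoint (M i) c) ∧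
      (¬ s → M i ⊆ c) ∧
      ((∀ c' ∈ C, (M i ⊆ c' ↔ ((s ∧ c ⊂ c') ∨ (¬ s ∧ c ⊆ c')))) ∨ (i ∈ J ∧ c = z i)) := by
    intro i
    by_cases hne : (M i).Nonempty
    swap
    · exact ⟨∅, True, fun h => absurd h hne⟩
    by_cases h1 : ∃ c ∈ C, Disjoint (M i) c ∧ ∀ c' ∈ C, Disjoint (M i) c' → c' ⊆ c
    · obtain ⟨c, hc, hd, hmax⟩ := h1
      refine ⟨c, True, fun _ => ⟨hc, fun _ => hd, fun h => absurd trivial h, Or.inl ?_⟩⟩
      intro c' hc'
      simp only [true_and, not_true_eq_false, false_and, or_false]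
      constructor
      · intro h; exact hlow i hne c hc c' hc' hd h
      · intro h
        rcases hMT i c' hc' with h2 | h2
        · exact h2
        · exact absurd (hmax c' hc' h2) h.2
    by_cases h2 : ∃ c ∈ C, M i ⊆ c ∧ ∀ c' ∈ C, M i ⊆ c' → c ⊆ c'
    · obtain ⟨c, hc, hd, hmin⟩ := h2
      refine ⟨c, False, fun _ => ⟨hc, fun h => h.elim, fun _ => hd, Or.inl ?_⟩⟩
      intro c' hc'
      simp only [false_and, not_false_eq_true, true_and, false_or]
      exact ⟨fun h => hmin c' hc' h, fun h => hd.trans h⟩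
    have hiJ : i ∈ J := by
      push Not at h1 h2
      refine ⟨hne, fun c hc hd => ?_, fun c hc hd => ?_⟩
      · obtain ⟨c', hc', hd', hn⟩ := h1 c hc hd
        refine ⟨c', hc', ?_, hd'⟩
        rcases hle c hc c' hc' with h | h
        · exact ⟨h, hn⟩
        · exact absurd h hn
      · obtain ⟨c', hc', hd', hn⟩ := h2 c hc hd
        refine ⟨c', hc', ?_, hd'⟩
        rcases hle c hc c' hc' with h | h
        · exact absurd h hn
        · exact ⟨h, hn⟩
    refine ⟨z i, Disjoint (M i) (z i), fun _ => ⟨hzC i hiJ, fun h => h, fun h => ?_,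
      Or.inr ⟨hiJ, rfl⟩⟩⟩
    rcases hMT i (z i) (hzC i hiJ) with h3 | h3
    · exact h3
    · exact absurd h3 h
  choose cc ss hcs using hplace
  set Lam : Set ℕ → ℕ → Prop := fun c i => (ss i ∧ cc i ⊂ c) ∨ (¬ ss i ∧ cc i ⊆ c) with hLam
  -- finiteness of the mismatch
  have hfin : ∀ c ∈ C, {i | (M i).Nonempty ∧ ¬ (M i ⊆ c ↔ Lam c i)}.Finite := by
    intro c hc
    refine (hzfin c hc).subset ?_
    rintro i ⟨hne, hmis⟩
    obtain ⟨h1, h2, h3, h4⟩ := hcs i hne
    rcases h4 with h4 | ⟨hiJ, hz⟩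
    · exact absurd (h4 c hc) hmis
    refine ⟨hiJ, ?_⟩
    rw [← hz]
    by_cases hs : ss i
    · left
      have hd := h2 hs
      refine ⟨hd, ?_⟩
      by_cases hMc : M i ⊆ c
      · exfalso
        exact hmis ⟨fun _ => Or.inl ⟨hs, hlow i hne _ h1 c hc hd hMc⟩, fun _ => hMc⟩
      · have hd' : Disjoint (M i) c := (hMT i c hc).resolve_left hMc
        refine ⟨?_, hd'⟩
        by_contra hcon
        refine hmis ⟨fun h => absurd h hMc, ?_⟩
        rintro (⟨-, h5⟩ | ⟨h5, -⟩)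
        · exact absurd h5 hcon
        · exact absurd hs h5
    · right
      have hd := h3 hs
      refine ⟨hd, ?_⟩
      by_cases hMc : M i ⊆ c
      · refine ⟨hMc, ?_⟩
        by_contra hcon
        refine hmis ⟨fun _ => Or.inr ⟨hs, ?_⟩, fun _ => hMc⟩
        rcases hle (cc i) h1 c hc with h5 | h5
        · exact h5
        · by_contra h6
          exact hcon ⟨h5, h6⟩
      · exfalso
        refine hmis ⟨fun h => absurd h hMc, ?_⟩
        rintro (⟨h5, -⟩ | ⟨-, h5⟩)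
        · exact absurd h5 hs
        · exact hd.trans h5
  -- the new chain
  set Pp : Set ℕ → ℕ → ℕ → Prop := fun c n i => Lam c i ∨ (i < n ∧ cc i = c ∧ ss i) with hPp
  set Pm : Set ℕ → ℕ → ℕ → Prop := fun c n i => Lam c i ∧ ¬ (i < n ∧ cc i = c ∧ ¬ ss i) with hPm
  set Gp : Set ℕ → ℕ → Set ℕ := fun c n => S M (Pp c n) c with hGp
  set Gm : Set ℕ → ℕ → Set ℕ := fun c n => S M (Pm c n) c with hGm
  set C' : Set (Set ℕ) := {x | ∃ c ∈ C, ∃ n, x = Gp c n ∨ x = Gm c n} with hC'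
  have hfinp : ∀ c ∈ C, ∀ n, {i | (M i).Nonempty ∧ ¬ (M i ⊆ c ↔ Pp c n i)}.Finite := by
    intro c hc n
    refine ((hfin c hc).union (Set.finite_lt_nat n)).subset ?_
    rintro i ⟨hne, hmis⟩
    by_cases hin : i < n
    · exact Or.inr hin
    · left
      refine ⟨hne, fun h => hmis ?_⟩
      rw [h]
      simp only [hPp]
      constructor
      · exact fun h => Or.inl h
      · rintro (h | h)
        · exact h
        · exact absurd h.1 hin
  have hfinm : ∀ c ∈ C, ∀ n, {i | (M i).Nonempty ∧ ¬ (M i ⊆ c ↔ Pm c n i)}.Finite := by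
    intro c hc n
    refine ((hfin c hc).union (Set.finite_lt_nat n)).subset ?_
    rintro i ⟨hne, hmis⟩
    by_cases hin : i < n
    · exact Or.inr hin
    · left
      refine ⟨hne, fun h => hmis ?_⟩
      rw [h]
      simp only [hPm]
      constructor
      · exact fun h => ⟨h, fun h' => hin h'.1⟩
      · exact fun h => h.1
  have hC'A : C' ⊆ A := by
    rintro x ⟨c, hc, n, rfl | rfl⟩
    · exact (S_mem_iff hdis (fun i => hMT i c hc) hMA (hfinp c hc n)).2 (hC.sub hc)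
    · exact (S_mem_iff hdis (fun i => hMT i c hc) hMA (hfinm c hc n)).2 (hC.sub hc)
  have hSD : ∀ c ∈ C, ∀ P, S M P c ⊆ D := by
    rintro c hc P x (⟨i, hi, -⟩ | ⟨-, h⟩)
    · exact hMD i hi
    · exact hC.le c hc h
  -- comparisons in the new chain
  have hlt : ∀ c ∈ C, ∀ c' ∈ C, c ⊂ c' → ∀ n m, Gp c n ⊆ Gm c' m := by
    intro c hc c' hc' hcc n m
    refine S_mono ?_ hcc.1
    rintro i hi (h | ⟨-, h1, h2⟩)
    · rcases h with ⟨h1, h2⟩ | ⟨h1, h2⟩
      · exact ⟨Or.inl ⟨h1, h2.trans hcc⟩, fun h => h.2.2 h1⟩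
      · refine ⟨Or.inr ⟨h1, h2.trans hcc.1⟩, fun h => ?_⟩
        rw [h.2.1] at h2
        exact hcc.2 h2
    · refine ⟨Or.inl ⟨h2, h1 ▸ hcc⟩, fun h => h.2.2 h2⟩
  have hmp : ∀ c, ∀ n m, Gm c n ⊆ Gp c m := fun c n m =>
    S_mono (fun i _ h => Or.inl h.1) le_rfl
  have hpp : ∀ c, ∀ n m, n ≤ m → Gp c n ⊆ Gp c m := fun c n m hnm =>
    S_mono (fun i _ h => h.imp id fun h => ⟨h.1.trans_le hnm, h.2⟩) le_rfl
  have hmm : ∀ c, ∀ n m, n ≤ m → Gm c m ⊆ Gm c n := fun c n m hnm =>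
    S_mono (fun i _ h => ⟨h.1, fun h' => h.2 ⟨h'.1.trans_le hnm, h'.2⟩⟩) le_rfl
  have hlt' : ∀ c ∈ C, ∀ c' ∈ C, c ⊂ c' → ∀ x y, (∃ n, x = Gp c n ∨ x = Gm c n) →
      (∃ n, y = Gp c' n ∨ y = Gm c' n) → x ⊆ y := by
    rintro c hc c' hc' hcc x y ⟨n, hx⟩ ⟨m, hy⟩
    have h1 : x ⊆ Gp c n := by
      rcases hx with rfl | rfl
      · exact le_rfl
      · exact hmp c n n
    have h2 : Gm c' m ⊆ y := by
      rcases hy with rfl | rfl
      · exact hmp c' m m
      · exact le_rfl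
    exact h1.trans ((hlt c hc c' hc' hcc n m).trans h2)
  have hcase : ∀ c ∈ C, ∀ c' ∈ C, c ⊂ c' ∨ c = c' ∨ c' ⊂ c := by
    intro c hc c' hc'
    by_cases h : c = c'
    · exact Or.inr (Or.inl h)
    · rcases hle c hc c' hc' with h1 | h1
      · exact Or.inl ⟨h1, fun h2 => h (h1.antisymm h2)⟩
      · exact Or.inr (Or.inr ⟨h1, fun h2 => h (h2.antisymm h1)⟩)
  have hchain : IsChain (· ⊆ ·) C' := by
    rintro x ⟨c, hc, n, hx⟩ y ⟨c', hc', m, hy⟩ -
    rcases hcase c hc c' hc' with h | rfl | h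
    · exact Or.inl (hlt' c hc c' hc' h x y ⟨n, hx⟩ ⟨m, hy⟩)
    · rcases hx with rfl | rfl <;> rcases hy with rfl | rfl
      · rcases le_total n m with h | h
        · exact Or.inl (hpp c n m h)
        · exact Or.inr (hpp c m n h)
      · exact Or.inr (hmp c m n)
      · exact Or.inl (hmp c n m)
      · rcases le_total n m with h | h
        · exact Or.inr (hmm c n m h)
        · exact Or.inl (hmm c m n h)
    · exact Or.inr (hlt' c' hc' c hc h y x ⟨m, hy⟩ ⟨n, hx⟩)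
  have h0C' : ∅ ∈ C' := by
    refine ⟨∅, hC.bot, 0, Or.inl (Eq.symm ?_)⟩
    rw [eq_empty_iff_forall_notMem]
    rintro x (⟨i, hi, h⟩ | ⟨-, h⟩)
    · rcases h with h | h
      · rcases h with ⟨-, h⟩ | ⟨h1, h2⟩
        · exact h.2 (empty_subset _)
        · exact (h2 ((hcs i ⟨x, hi⟩).2.2.1 h1 hi))
      · exact absurd h.1 (Nat.not_lt_zero _)
    · exact h
  have hDC' : D ∈ C' := by
    refine ⟨D, hC.top, 0, Or.inl (Eq.symm ?_)⟩
    refine (hSD D hC.top _).antisymm ?_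
    intro x hx
    by_cases h : ∃ i, x ∈ M i
    · obtain ⟨i, hi⟩ := h
      refine Or.inl ⟨i, hi, Or.inl ?_⟩
      obtain ⟨h1, h2, h3, -⟩ := hcs i ⟨x, hi⟩
      by_cases hs : ss i
      · exact Or.inl ⟨hs, hlow i ⟨x, hi⟩ _ h1 D hC.top (h2 hs) (hMD i)⟩
      · exact Or.inr ⟨hs, hC.le _ h1⟩
    · push Not at h
      exact Or.inr ⟨h, hx⟩
  -- the blocks
  set pp : ℕ → Set ℕ × Set ℕ := fun i =>
    if ss i then (Gp (cc i) i, Gp (cc i) (i + 1)) else (Gm (cc i) (i + 1), Gm (cc i) i) with hpp'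
  have hdiff : ∀ i, (M i).Nonempty → (pp i).1 ⊆ (pp i).2 ∧ (pp i).2 \ (pp i).1 = M i := by
    intro i hne
    obtain ⟨h1, h2, h3, -⟩ := hcs i hne
    by_cases hs : ss i
    · simp only [hpp', if_pos hs]
      refine ⟨hpp _ _ _ (Nat.le_succ i), ?_⟩
      ext x
      constructor
      · rintro ⟨hx, hx'⟩
        rcases hx with ⟨j, hj, hP⟩ | hx
        · rcases hP with hP | ⟨hP1, hP2, hP3⟩
          · exact absurd (Or.inl ⟨j, hj, Or.inl hP⟩) hx'
          · by_cases hji : j = i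
            · rw [← hji]; exact hj
            · exact absurd (Or.inl ⟨j, hj, Or.inr ⟨by omega, hP2, hP3⟩⟩) hx'
        · exact absurd (Or.inr hx) hx'
      · intro hx
        refine ⟨Or.inl ⟨i, hx, Or.inr ⟨Nat.lt_succ_self i, rfl, hs⟩⟩, ?_⟩
        intro hx'
        have := (mem_S hdis hx).1 hx'
        rcases this with h | h
        · rcases h with ⟨-, h⟩ | ⟨h, -⟩
          · exact h.2 h.1
          · exact h hs
        · exact absurd h.1 (lt_irrefl i)
    · simp only [hpp', if_neg hs]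
      refine ⟨hmm _ _ _ (Nat.le_succ i), ?_⟩
      ext x
      constructor
      · rintro ⟨hx, hx'⟩
        rcases hx with ⟨j, hj, hP1, hP2⟩ | hx
        · by_cases hji : j = i
          · rw [← hji]; exact hj
          · refine absurd (Or.inl ⟨j, hj, hP1, fun h => hP2 ⟨?_, h.2⟩⟩) hx'
            have := h.1
            omega
        · exact absurd (Or.inr hx) hx'
      · intro hx
        refine ⟨Or.inl ⟨i, hx, Or.inr ⟨hs, le_rfl⟩, fun h => lt_irrefl i h.1⟩, ?_⟩
        intro hx'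
        have := (mem_S hdis hx).1 hx'
        exact this.2 ⟨Nat.lt_succ_self i, rfl, hs⟩
  have hppC : ∀ i, (M i).Nonempty → (pp i).1 ∈ C' ∧ (pp i).2 ∈ C' := by
    intro i hne
    obtain ⟨h1, -, -, -⟩ := hcs i hne
    by_cases hs : ss i
    · simp only [hpp', if_pos hs]
      exact ⟨⟨_, h1, i, Or.inl rfl⟩, ⟨_, h1, i + 1, Or.inl rfl⟩⟩
    · simp only [hpp', if_neg hs]
      exact ⟨⟨_, h1, i + 1, Or.inr rfl⟩, ⟨_, h1, i, Or.inr rfl⟩⟩
  refine ⟨C', {p | ∃ i, (M i).Nonempty ∧ p = pp i}, hC'A, ?_, hchain, h0C', hDC', ?_, ?_⟩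
  · rintro x ⟨c, hc, n, rfl | rfl⟩
    · exact hSD c hc _
    · exact hSD c hc _
  · rintro p ⟨i, hne, rfl⟩
    obtain ⟨h1, h2, h3, -⟩ := hcs i hne
    obtain ⟨h4, h5⟩ := hdiff i hne
    refine ⟨(hppC i hne).1, (hppC i hne).2, ⟨h4, fun h => ?_⟩, ?_, ?_⟩
    · rw [sdiff_eq_empty.2 h] at h5
      rw [← h5] at hne
      exact not_nonempty_empty hne
    · rintro x ⟨c, hc, n, hx⟩
      rcases hcase c hc (cc i) h1 with h | h | h
      · left
        refine hlt' c hc (cc i) h1 h x _ ⟨n, hx⟩ ?_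
        by_cases hs : ss i
        · simp only [hpp', if_pos hs]; exact ⟨i, Or.inl rfl⟩
        · simp only [hpp', if_neg hs]; exact ⟨i + 1, Or.inr rfl⟩
      · subst h
        by_cases hs : ss i
        · simp only [hpp', if_pos hs]
          rcases hx with rfl | rfl
          · rcases Nat.lt_or_ge i n with h | h
            · exact Or.inr (hpp _ _ _ h)
            · exact Or.inl (hpp _ _ _ h)
          · exact Or.inl (hmp _ _ _)
        · simp only [hpp', if_neg hs]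
          rcases hx with rfl | rfl
          · exact Or.inr (hmp _ _ _)
          · rcases Nat.lt_or_ge i n with h | h
            · exact Or.inl (hmm _ _ _ h)
            · exact Or.inr (hmm _ _ _ h)
      · right
        refine hlt' (cc i) h1 c hc h _ x ?_ ⟨n, hx⟩
        by_cases hs : ss i
        · simp only [hpp', if_pos hs]; exact ⟨i + 1, Or.inl rfl⟩
        · simp only [hpp', if_neg hs]; exact ⟨i, Or.inr rfl⟩
    · rw [h5]; exact hMT i
  · -- generation
    have hMcl : ∀ i, M i ∈ BooleanSubalgebra.closure C' := by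
      intro i
      by_cases hne : (M i).Nonempty
      · rw [← (hdiff i hne).2]
        exact BooleanSubalgebra.sdiff_mem
          (BooleanSubalgebra.subset_closure (hppC i hne).2)
          (BooleanSubalgebra.subset_closure (hppC i hne).1)
      · rw [not_nonempty_iff_eq_empty.1 hne]
        exact BooleanSubalgebra.bot_mem
    have hUcl : ∀ n, (⋃ i ∈ Finset.range n, M i) ∈ BooleanSubalgebra.closure C' := by
      intro n
      exact BooleanSubalgebra.biSup_mem (t := (↑(Finset.range n) : Set ℕ))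
        (Finset.finite_toSet _) fun j _ => hMcl j
    have hCcl : ∀ c ∈ C, c ∈ BooleanSubalgebra.closure C' := by
      intro c hc
      rw [← S_mem_iff hdis (fun i => hMT i c hc) hMcl (hfinp c hc 0)]
      exact BooleanSubalgebra.subset_closure ⟨c, hc, 0, Or.inl rfl⟩
    have hgen : ∀ q ∈ BooleanSubalgebra.closure (C ∪ T), ∃ n,
        q \ (⋃ i ∈ Finset.range n, M i) ∈ BooleanSubalgebra.closure C' := by
      intro q hq
      have hmonoU : ∀ n m, n ≤ m → (⋃ i ∈ Finset.range n, M i) ⊆ ⋃ i ∈ Finset.range m, M i := by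
        intro n m hnm
        refine biUnion_subset_biUnion_left ?_
        intro i hi
        exact Finset.mem_range.2 ((Finset.mem_range.1 hi).trans_le hnm)
      have hup : ∀ (q : Set ℕ) n m, n ≤ m →
          q \ (⋃ i ∈ Finset.range n, M i) ∈ BooleanSubalgebra.closure C' →
          q \ (⋃ i ∈ Finset.range m, M i) ∈ BooleanSubalgebra.closure C' := by
        intro q n m hnm h
        have h1 : q \ (⋃ i ∈ Finset.range m, M i) =
            (q \ (⋃ i ∈ Finset.range n, M i)) \ (⋃ i ∈ Finset.range m, M i) := by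
          rw [sdiff_sdiff, union_eq_self_of_subset_left (hmonoU n m hnm)]
        rw [h1]
        exact BooleanSubalgebra.sdiff_mem h (hUcl m)
      induction hq using BooleanSubalgebra.closure_bot_sup_induction with
      | mem x hx =>
        rcases hx with hx | hx
        · exact ⟨0, BooleanSubalgebra.sdiff_mem (hCcl x hx) (hUcl 0)⟩
        · obtain ⟨n, hn⟩ := hTcov x hx
          refine ⟨n, ?_⟩
          rw [sdiff_eq_empty.2 hn]
          exact BooleanSubalgebra.bot_mem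
      | bot =>
        refine ⟨0, ?_⟩
        exact BooleanSubalgebra.sdiff_mem BooleanSubalgebra.bot_mem (hUcl 0)
      | sup x hx y hy ihx ihy =>
        obtain ⟨n, hn⟩ := ihx
        obtain ⟨m, hm⟩ := ihy
        refine ⟨max n m, ?_⟩
        have h1 : (x ⊔ y) \ (⋃ i ∈ Finset.range (max n m), M i) =
            (x \ (⋃ i ∈ Finset.range (max n m), M i)) ⊔
            (y \ (⋃ i ∈ Finset.range (max n m), M i)) := sup_sdiff
        rw [h1]
        exact BooleanSubalgebra.sup_mem (hup x n _ (le_max_left _ _) hn)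
          (hup y m _ (le_max_right _ _) hm)
      | compl x hx ih =>
        obtain ⟨n, hn⟩ := ih
        refine ⟨n, ?_⟩
        have h1 : xᶜ \ (⋃ i ∈ Finset.range n, M i) =
            (x \ (⋃ i ∈ Finset.range n, M i))ᶜ \ (⋃ i ∈ Finset.range n, M i) := by
          ext y
          simp only [mem_sdiff, mem_compl_iff]
          tauto
        rw [h1]
        exact BooleanSubalgebra.sdiff_mem (BooleanSubalgebra.compl_mem hn) (hUcl n)
    intro q hq hqD
    obtain ⟨n, hn⟩ := hgen q (hC.gen q hq hqD)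
    refine ⟨{p | ∃ i < n, (M i).Nonempty ∧ p = pp i}, ?_, ?_, ?_⟩
    · rintro p ⟨i, -, hne, rfl⟩
      exact ⟨i, hne, rfl⟩
    · refine ((Set.finite_lt_nat n).image pp).subset ?_
      rintro p ⟨i, hi, -, rfl⟩
      exact ⟨i, hi, rfl⟩
    · have h1 : q = (q \ ⋃ i ∈ Finset.range n, M i) ⊔ ⋃ i ∈ (↑(Finset.range n) : Set ℕ),
          (q ∩ M i) := by
        ext x
        simp only [sup_eq_union, mem_union, mem_sdiff, mem_iUnion, mem_inter_iff, exists_prop,
          Finset.coe_range, mem_Iio, Finset.mem_range]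
        constructor
        · intro hx
          by_cases h : ∃ i, i < n ∧ x ∈ M i
          · obtain ⟨i, hi, hxi⟩ := h
            exact Or.inr ⟨i, hi, hx, hxi⟩
          · exact Or.inl ⟨hx, h⟩
        · rintro (⟨hx, -⟩ | ⟨i, -, hx, -⟩)
          · exact hx
          · exact hx
      rw [h1]
      refine BooleanSubalgebra.sup_mem ?_ ?_
      · rw [← h1]
        exact BooleanSubalgebra.closure_mono subset_union_left hn
      · rw [← h1]
        refine BooleanSubalgebra.biSup_mem (Finset.finite_toSet _) fun i hi => ?_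
        by_cases hne : (M i).Nonempty
        · refine BooleanSubalgebra.subset_closure (Or.inr ⟨pp i, ⟨i, ?_, hne, rfl⟩, ?_⟩)
          · simpa using hi
          · rw [(hdiff i hne).2]
        · rw [not_nonempty_iff_eq_empty.1 hne, inter_empty]
          exact BooleanSubalgebra.bot_mem

end Pool.Agent.Hia
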