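import Pool.Agent.Helper87.Hia.OneStep
import Pool.Agent.Helper16.Hia.Zone

/-!
MP_5ace61_lc, BLOCK D (one step).
-/

open Set Cardinal

namespace Pool.Agent.Hia

/-- BLOCK D (one step) -/
theorem one_step {A : BooleanSubalgebra (Set ℕ)} (hl : HL A) (hcard : #A < splittingNumber)
    {D : Set ℕ} (hD : D ∈ A) {C : Set (Set ℕ)} (hC : GoodChain A D C) :
    ∃ (C' : Set (Set ℕ)) (B : Set (Set ℕ × Set ℕ)), C' ⊆ A ∧ (∀ c ∈ C', c ⊆ D) ∧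
      IsChain (· ⊆ ·) C' ∧ ∅ ∈ C' ∧ D ∈ C' ∧
      (∀ p ∈ B, p.1 ∈ C' ∧ p.2 ∈ C' ∧ p.1 ⊂ p.2 ∧ (∀ h ∈ C', h ⊆ p.1 ∨ p.2 ⊆ h) ∧
        Triv C (p.2 \ p.1)) ∧
      (∀ q ∈ A, q ⊆ D → ∃ F ⊆ B, F.Finite ∧
        q ∈ BooleanSubalgebra.closure (C' ∪ {x | ∃ p ∈ F, x = q ∩ (p.2 \ p.1)})) :=
  one_step_of_zone hl hD hC fun M J h1 h2 h3 =>
    zone hC.chain (lt_of_le_of_lt (Cardinal.mk_le_mk_of_subset hC.sub) hcard) M J h1 h2 h3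

end Pool.Agent.Hia
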